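import Pool.Agent.H.MP_74305c.A

set_option autoImplicit false

open Set Filter Topology TopologicalSpace

namespace Pool.Agent.Results.MP_74305c_gt.Counter

variable {X : Type}

/-- the points not yet covered before round `n`; `A k = (Y_k, V_k)` are the moves of Alice and
`D k` the moves of Bob -/
def W (A : ℕ → Set X × (X → Set X)) (D : ℕ → Set X) (n : ℕ) : Set X :=
  (⋃ k < n, ⋃ x ∈ D k, (A k).2 x)ᶜ

/-- the move of Alice in round `n` obeys the rules -/
def Legal [TopologicalSpace X] (A : ℕ → Set X × (X → Set X)) (D : ℕ → Set X) (n : ℕ) : Prop :=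
  (∀ x ∈ (A n).1, IsOpen ((A n).2 x) ∧ x ∈ (A n).2 x) ∧ (A n).1 ⊆ W A D n ∧
    W A D n ⊆ ⋃ x ∈ (A n).1, (A n).2 x

/-- Bob has a winning strategy in the game PONAG -/
def BobWins (X : Type) [TopologicalSpace X] : Prop :=
  ∃ σ : (n : ℕ) → (Fin (n + 1) → Set X × (X → Set X)) → Set X,
    ∀ (A : ℕ → Set X × (X → Set X)) (D : ℕ → Set X), (∀ n, D n = σ n fun i => A i) →
      (∀ n, (∀ k ≤ n, Legal A D k) → D n ⊆ (A n).1 ∧ IsClosed (D n) ∧ IsDiscrete (D n)) ∧
      ((∀ n, Legal A D n) → ⋃ n, ⋃ x ∈ D n, (A n).2 x = univ)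

/-- total paracompactness -/
def TotPara (X : Type) [TopologicalSpace X] : Prop :=
  ∀ B : Set (Set X), IsTopologicalBasis B →
    ∃ C ⊆ B, ⋃₀ C = univ ∧ LocallyFinite fun c : C => c.1

open Pool.Agent.H.MP_74305c in
theorem result : ∃ (X : Type) (_ : TopologicalSpace X), T3Space X ∧ Infinite X ∧ BobWins X ∧
    ¬ TotPara X := by
  classical
  refine ⟨H.MP_74305c.X, inferInstance, inferInstance, inferInstance, ⟨fun n m => if n = 0 then
    range fun a => Classical.epsilon fun x => x ∈ (m 0).1 ∧ pa a ∈ (m 0).2 x else (m (Fin.last n)).1,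
    fun A D hD => ?_⟩, fun h => ?_⟩
  · have h0 : Legal A D 0 → ∀ a, (Classical.epsilon fun x => x ∈ (A 0).1 ∧ pa a ∈ (A 0).2 x) ∈
        (A 0).1 ∧ pa a ∈ (A 0).2 (Classical.epsilon fun x => x ∈ (A 0).1 ∧ pa a ∈ (A 0).2 x) :=
      fun h a => Classical.epsilon_spec (p := fun x => x ∈ (A 0).1 ∧ pa a ∈ (A 0).2 x)
        (by simpa using h.2.2 (show pa a ∈ W A D 0 by simp [W]))
    have e0 : D 0 = range fun a => Classical.epsilon fun x => x ∈ (A 0).1 ∧ pa a ∈ (A 0).2 x :=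
      (hD 0).trans (if_pos rfl)
    have e1 : ∀ n, D (n + 1) = (A (n + 1)).1 := fun n => (hD _).trans (if_neg n.succ_ne_zero)
    refine ⟨fun n h => ?_, fun h => eq_univ_of_forall fun x => ?_⟩
    · rcases n with _ | n
      · exact ⟨e0 ▸ range_subset_iff.2 fun a => (h0 (h 0 le_rfl) a).1, cd fun E hE => small_closed
          ((Cardinal.mk_le_mk_of_subset (hE.trans e0.subset)).trans
            (Cardinal.mk_range_le.trans (by simp)))⟩
      · refine ⟨(e1 n).subset, cd fun E hE => ⟨fun a _ => ?_⟩⟩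
        have k := h0 (h 0 (Nat.zero_le _)) a
        obtain ⟨m, S, s1, s2⟩ := ((h 0 (Nat.zero_le _)).1 _ k.1).1 a k.2
        exact ⟨m, S, s1, fun l a t b c => (h _ le_rfl).2.1 (e1 n ▸ hE c) (mem_iUnion₂.2
          ⟨0, n.succ_pos, mem_iUnion₂.2 ⟨_, e0 ▸ ⟨_, rfl⟩, s2 l a t b⟩⟩)⟩
    · by_cases e : x ∈ W A D 1
      · exact mem_iUnion.2 ⟨1, e1 0 ▸ (h 1).2.2 e⟩
      · obtain ⟨k, -, e⟩ := mem_iUnion₂.1 (not_not.1 e)
        exact mem_iUnion.2 ⟨k, e⟩
  · obtain ⟨B, b1, b2⟩ := not_tp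
    obtain ⟨C, c1, c2, c3⟩ := h B b1
    exact b2 C c1 c2 c3

end Pool.Agent.Results.MP_74305c_gt.Counter
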